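import Pool.Agent.LCK.Stmts

/-!
# Locked chains (MP_e0fe99_lc), row DEN: generic directions
-/

set_option autoImplicit false

open Topology MeasureTheory

namespace Pool.Agent.LCK.H83

open Pool.Agent.LCK

/-- the vectors outside finitely many planes are dense -/
theorem dense_off {n : ℕ} (a b : Fin n → E3) :
    Dense {w : E3 | ∀ i, w ∉ Submodule.span ℝ ({a i, b i} : Set E3)} := by
  classical
  have hP : ∀ i, Submodule.span ℝ ({a i, b i} : Set E3) ≠ ⊤ := by
    intro i h
    have h1 := finrank_span_finset_le_card (R := ℝ) ({a i, b i} : Finset E3)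
    have h2 : ((({a i, b i} : Finset E3)) : Set E3) = {a i, b i} := by
      simp
    have h3 : Module.finrank ℝ (Submodule.span ℝ ({a i, b i} : Set E3)) ≤ 2 := by
      rw [← h2]
      exact h1.trans Finset.card_le_two
    rw [h, finrank_top, finrank_euclideanSpace_fin] at h3
    omega
  have hae : ∀ᵐ w ∂(volume : Measure E3), ∀ i, w ∉ Submodule.span ℝ ({a i, b i} : Set E3) := by
    rw [ae_all_iff]
    intro i
    exact measure_eq_zero_iff_ae_notMem.1 (Measure.addHaar_submodule volume _ (hP i))
  exact Measure.dense_of_ae hae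

theorem den : DENStmt := by
  intro n l hl c hc x δ hx hδ
  obtain ⟨hlen, hsim⟩ := hc
  set p : E3 := c (Fin.last n) with hp
  have hD := dense_off (fun i : Fin n => c i.castSucc - p) (fun i : Fin n => c i.succ - p)
  have hne : x - p ≠ 0 := sub_ne_zero.2 hx
  have hr : 0 < ‖x - p‖ := norm_pos_iff.2 hne
  -- the radial map
  have hcont : ContinuousAt (fun w : E3 => p + (‖x - p‖ / ‖w‖) • w) (x - p) := by
    have h1 : ContinuousAt (fun w : E3 => ‖x - p‖ / ‖w‖) (x - p) :=
      continuousAt_const.div continuous_norm.continuousAt hr.ne'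
    have h2 : ContinuousAt (fun w : E3 => w) (x - p) := continuousAt_id
    exact continuousAt_const.add (h1.smul h2)
  have hval : p + (‖x - p‖ / ‖x - p‖) • (x - p) = x := by
    rw [div_self hr.ne', one_smul]
    abel
  have hN1 : {w : E3 | ‖(p + (‖x - p‖ / ‖w‖) • w) - x‖ < δ} ∈ 𝓝 (x - p) := by
    have h1 : Metric.ball x δ ∈ 𝓝 ((fun w : E3 => p + (‖x - p‖ / ‖w‖) • w) (x - p)) := by
      have h2 : (fun w : E3 => p + (‖x - p‖ / ‖w‖) • w) (x - p) = x := hval
      rw [h2]
      exact Metric.ball_mem_nhds x hδ
    have h3 := hcont.preimage_mem_nhds h1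
    filter_upwards [h3] with w hw
    have h4 : dist (p + (‖x - p‖ / ‖w‖) • w) x < δ := hw
    rwa [dist_eq_norm] at h4
  have hN2 : {w : E3 | w ≠ 0} ∈ 𝓝 (x - p) := isOpen_ne.mem_nhds hne
  obtain ⟨w, hwD, hw1, hw2⟩ := hD.inter_nhds_nonempty (Filter.inter_mem hN1 hN2)
  have hwn : 0 < ‖w‖ := norm_pos_iff.2 hw2
  have hs : 0 < ‖x - p‖ / ‖w‖ := div_pos hr hwn
  refine ⟨p + (‖x - p‖ / ‖w‖) • w, hw1, ?_, ?_⟩
  · rw [dist_eq_norm, dist_eq_norm, norm_sub_rev p x]
    have h1 : p - (p + (‖x - p‖ / ‖w‖) • w) = -((‖x - p‖ / ‖w‖) • w) := by abel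
    rw [h1, norm_neg, norm_smul, Real.norm_of_nonneg hs.le, div_mul_cancel₀ _ hwn.ne']
  · intro t ht i
    have hdir : p + (‖x - p‖ / ‖w‖) • w - p = (‖x - p‖ / ‖w‖) • w := by abel
    rw [hdir]
    rw [← hp]
    -- the intersection is contained in `{p}`
    have hsub : ∀ z ∈ segment ℝ (c i.castSucc) (c i.succ) ∩
        segment ℝ p (p + t • ((‖x - p‖ / ‖w‖) • w)), z = p := by
      rintro z ⟨⟨a, b, ha, hb, hab, hz⟩, h2⟩
      rw [segment_eq_image'] at h2
      obtain ⟨s, -, hs2⟩ := h2
      have h3 : z - p ∈ Submodule.span ℝ ({c i.castSucc - p, c i.succ - p} : Set E3) := by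
        have h4 : z - p = a • (c i.castSucc - p) + b • (c i.succ - p) := by
          rw [← hz, smul_sub, smul_sub]
          have h5 : a • p + b • p = p := by rw [← add_smul, hab, one_smul]
          calc a • c i.castSucc + b • c i.succ - p
              = a • c i.castSucc + b • c i.succ - (a • p + b • p) := by rw [h5]
            _ = a • c i.castSucc - a • p + (b • c i.succ - b • p) := by abel
        rw [h4]
        refine Submodule.add_mem _ (Submodule.smul_mem _ _ (Submodule.subset_span ?_))
          (Submodule.smul_mem _ _ (Submodule.subset_span ?_))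
        · simp
        · simp
      have h6 : z - p = (s * (t * (‖x - p‖ / ‖w‖))) • w := by
        rw [← hs2]
        simp only [add_sub_cancel_left, smul_smul]
      by_cases h7 : s * (t * (‖x - p‖ / ‖w‖)) = 0
      · rw [h7, zero_smul] at h6
        exact sub_eq_zero.1 h6
      · exfalso
        apply hwD i
        have h8 : w = (s * (t * (‖x - p‖ / ‖w‖)))⁻¹ • (z - p) := by
          rw [h6, smul_smul, inv_mul_cancel₀ h7, one_smul]
        rw [h8]
        exact Submodule.smul_mem _ _ h3
    by_cases hi : (i : ℕ) + 1 = n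
    · rw [if_pos hi]
      have hisucc : i.succ = Fin.last n := by
        apply Fin.ext
        simp [hi]
      apply Set.Subset.antisymm
      · intro z hz
        exact hsub z hz
      · intro z hz
        rw [Set.mem_singleton_iff] at hz
        rw [hz]
        refine ⟨?_, left_mem_segment ℝ _ _⟩
        rw [hisucc]
        exact right_mem_segment ℝ _ _
    · rw [if_neg hi]
      apply Set.eq_empty_of_forall_notMem
      intro z hz
      have hzp := hsub z hz
      have hpi : p ∈ segment ℝ (c i.castSucc) (c i.succ) := by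
        rw [← hzp]
        exact hz.1
      have hilt : (i : ℕ) + 1 < n := by
        have := i.2
        omega
      let j : Fin n := ⟨n - 1, by omega⟩
      have hij : i < j := by
        rw [Fin.lt_def]
        show (i : ℕ) < n - 1
        omega
      have hjs : j.succ = Fin.last n := by
        apply Fin.ext
        show n - 1 + 1 = n
        omega
      have hpj : p ∈ segment ℝ (c j.castSucc) (c j.succ) := by
        rw [hjs]
        exact right_mem_segment ℝ _ _
      have h9 := hsim i j hij
      have h10 : p ∈ segment ℝ (c i.castSucc) (c i.succ) ∩ segment ℝ (c j.castSucc) (c j.succ) :=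
        ⟨hpi, hpj⟩
      rw [h9] at h10
      split_ifs at h10 with h11
      · rw [Set.mem_singleton_iff] at h10
        have h12 : i.succ = j.castSucc := by
          apply Fin.ext
          show (i : ℕ) + 1 = n - 1
          have h13 : (j : ℕ) = n - 1 := rfl
          omega
        have h14 := hlen j
        rw [hjs, ← hp, h10, ← h12, dist_self] at h14
        exact (hl j).ne h14
      · exact h10

end Pool.Agent.LCK.H83
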